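import Mathlib

/-!
Directed X-rays at infinitely many points do not determine a function.

Let `x = (x₀, x')`, `ρ = |x'|`, and put `f(x) = ρ⁻² F(x₀/ρ, 1/ρ - 1)`.  For a point `p = a e₀` and
a unit vector `u` with `s = |u'|` the substitution `η = 1/(s t)` gives
`D_p f(u) = (1/s) ∫ F(u₀/s + a η, η - 1) dη`.  So we need `F ≠ 0`, rapidly decreasing in `η`,
vanishing for `|ξ| > 1` and for `η ≤ 0`, whose integrals along all lines with slope `a` vanish, for
infinitely many `a`.  Let `w_0` be a function all of whose moments vanish, `w_{j+1}` the primitive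
of `w_j`, `φ` a bump function, and let the polynomial `∑ b_j X^j` stand for the function
`∑ b_j φ^{(j)}(ξ) w_j(η)`.  A multiple of `1 + a X` then has zero integral along every line of slope
`a`, since it is a derivative along such lines.  `F` is the limit of the functions of the
products `∏ (1 + a_k X)`, with `a_k` tending to zero fast enough.
-/

open MeasureTheory Set Filter Topology
open scoped ContDiff

noncomputable section
namespace Pool.Agent.Results.MP_113557_an.InfinitePointsFail

/-- The divergent beam transform (directed X-ray) `D_p f(u)`: the integral of `f` along the ray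
that starts at `p` and has direction `u`. -/
def divergentBeam {n : ℕ} (f : EuclideanSpace ℝ (Fin n) → ℝ)
    (p u : EuclideanSpace ℝ (Fin n)) : ℝ :=
  ∫ t in Set.Ioi (0 : ℝ), f (p + t • u)



/-- continuous, zero on `(-∞, 0]`, rapidly decreasing, all moments zero -/
structure Good (w : ℝ → ℝ) : Prop where
  cont : Continuous w
  supp : ∀ t ≤ 0, w t = 0
  decay : ∀ k : ℕ, ∃ C, ∀ t, |t| ^ k * |w t| ≤ C
  moment : ∀ k : ℕ, ∫ t, t ^ k * w t = 0

lemma Good.bound {w : ℝ → ℝ} (hw : Good w) (k : ℕ) :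
    ∃ C, ∀ t, |t ^ k * w t| ≤ C * (1 + t ^ 2)⁻¹ := by
  obtain ⟨C1, h1⟩ := hw.decay k
  obtain ⟨C2, h2⟩ := hw.decay (k + 2)
  refine ⟨C1 + C2, fun t => ?_⟩
  have hpos : 0 < 1 + t ^ 2 := by positivity
  rw [← div_eq_mul_inv, le_div_iff₀ hpos, abs_mul, abs_pow]
  have e : |t| ^ k * |w t| * (1 + t ^ 2) = |t| ^ k * |w t| + |t| ^ (k + 2) * |w t| := by
    rw [pow_add, sq_abs]; ring
  rw [e]
  exact add_le_add (h1 t) (h2 t)

lemma Good.integrable {w : ℝ → ℝ} (hw : Good w) (k : ℕ) :
    Integrable (fun t => t ^ k * w t) := by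
  obtain ⟨C, hC⟩ := hw.bound k
  refine (integrable_inv_one_add_sq.const_mul C).mono' ?_ ?_
  · exact ((continuous_pow k).mul hw.cont).aestronglyMeasurable
  · exact Eventually.of_forall fun t => by simpa using hC t

/-- The primitive that vanishes at `0`. -/
def prim (w : ℝ → ℝ) (t : ℝ) : ℝ := ∫ s in (0 : ℝ)..t, w s

lemma hasDerivAt_prim {w : ℝ → ℝ} (hw : Good w) (t : ℝ) : HasDerivAt (prim w) (w t) t :=
  (hw.cont.integral_hasStrictDerivAt 0 t).hasDerivAt

lemma prim_eq_neg {w : ℝ → ℝ} (hw : Good w) (t : ℝ) :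
    prim w t = - ∫ s in Ioi t, w s := by
  have hi : Integrable w := by simpa using hw.integrable 0
  have h0 : ∫ s in Ioi (0 : ℝ), w s = 0 := by
    have h1 := hw.moment 0
    simp only [pow_zero, one_mul] at h1
    refine Eq.trans ?_ h1
    apply setIntegral_eq_integral_of_forall_compl_eq_zero
    intro x hx
    exact hw.supp x (by simpa using hx)
  have h2 := intervalIntegral.integral_interval_add_Ioi (a := 0) (b := t)
    (hi.integrableOn (s := Ioi 0)) (hi.integrableOn (s := Ioi t))
  rw [h0] at h2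
  unfold prim
  linarith

lemma Good.primitive {w : ℝ → ℝ} (hw : Good w) : Good (prim w) := by
  have hd := hasDerivAt_prim hw
  have hcont : Continuous (prim w) := continuous_iff_continuousAt.2 fun t => (hd t).continuousAt
  have hsupp : ∀ t ≤ 0, prim w t = 0 := by
    intro t ht
    unfold prim
    rw [intervalIntegral.integral_congr (g := fun _ => (0 : ℝ))]
    · simp
    · intro s hs
      rw [uIcc_of_ge ht] at hs
      exact hw.supp s hs.2
  have hdecay : ∀ k : ℕ, ∃ C, ∀ t, |t| ^ k * |prim w t| ≤ C := by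
    intro k
    refine ⟨∫ s, |s ^ k * w s|, fun t => ?_⟩
    rcases le_total t 0 with ht | ht
    · rw [hsupp t ht, abs_zero, mul_zero]
      exact integral_nonneg fun s => abs_nonneg _
    · have hi : Integrable w := by simpa using hw.integrable 0
      rw [prim_eq_neg hw t, abs_neg, abs_of_nonneg ht]
      calc t ^ k * |∫ s in Ioi t, w s| ≤ t ^ k * ∫ s in Ioi t, |w s| := by
            gcongr
            exact abs_integral_le_integral_abs
        _ = ∫ s in Ioi t, t ^ k * |w s| := by rw [integral_const_mul]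
        _ ≤ ∫ s in Ioi t, |s ^ k * w s| := by
            refine setIntegral_mono_on ?_ ?_ measurableSet_Ioi ?_
            · exact (hi.abs.const_mul _).integrableOn
            · exact (hw.integrable k).abs.integrableOn
            · intro s hs
              rw [abs_mul, abs_pow]
              gcongr
              exact (le_of_lt hs).trans (le_abs_self s)
        _ ≤ ∫ s, |s ^ k * w s| := by
            exact setIntegral_le_integral (hw.integrable k).abs
              (Eventually.of_forall fun s => abs_nonneg _)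
  have hint : ∀ k : ℕ, Integrable (fun t => t ^ k * prim w t) := by
    intro k
    obtain ⟨C1, h1⟩ := hdecay k
    obtain ⟨C2, h2⟩ := hdecay (k + 2)
    refine (integrable_inv_one_add_sq.const_mul (C1 + C2)).mono' ?_ ?_
    · exact ((continuous_pow k).mul hcont).aestronglyMeasurable
    · refine Eventually.of_forall fun t => ?_
      have hpos : 0 < 1 + t ^ 2 := by positivity
      rw [← div_eq_mul_inv, le_div_iff₀ hpos, norm_mul, norm_pow, Real.norm_eq_abs,
        Real.norm_eq_abs]
      have e : |t| ^ k * |prim w t| * (1 + t ^ 2)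
          = |t| ^ k * |prim w t| + |t| ^ (k + 2) * |prim w t| := by
        rw [pow_add, sq_abs]; ring
      rw [e]
      exact add_le_add (h1 t) (h2 t)
  refine ⟨hcont, hsupp, hdecay, ?_⟩
  intro k
  have key : ∫ t, (((k + 1 : ℕ) : ℝ) * (t ^ k * prim w t) + t ^ (k + 1) * w t) = 0 := by
    refine integral_eq_zero_of_hasDerivAt_of_integrable
      (f := fun t => t ^ (k + 1) * prim w t) ?_ ?_ (hint (k + 1))
    · intro t
      have h3 : HasDerivAt (fun t => t ^ (k + 1) * prim w t)
          (((k + 1 : ℕ) : ℝ) * t ^ (k + 1 - 1) * prim w t + t ^ (k + 1) * w t) t :=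
        (hasDerivAt_pow (k + 1) t).mul (hd t)
      exact h3.congr_deriv (by rw [Nat.add_sub_cancel]; ring)
    · exact ((hint k).const_mul _).add (hw.integrable (k + 1))
  rw [integral_add ((hint k).const_mul _) (hw.integrable (k + 1)), integral_const_mul,
    hw.moment (k + 1), add_zero] at key
  have : ((k + 1 : ℕ) : ℝ) ≠ 0 := by positivity
  exact (mul_eq_zero.1 key).resolve_left this

/-- Stieltjes' function: its moments on the half line all vanish. -/
def w0 (t : ℝ) : ℝ :=
  if t ≤ 0 then 0 else Real.exp (-(Real.log t) ^ 2) * Real.sin (2 * Real.pi * Real.log t)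

lemma w0_le {t : ℝ} (ht : 0 < t) (a : ℝ) :
    Real.exp (a * Real.log t) * |w0 t| ≤ Real.exp (a ^ 2 / 4) := by
  rw [w0, if_neg (not_le.2 ht), abs_mul, Real.abs_exp]
  calc Real.exp (a * Real.log t) * (Real.exp (-(Real.log t) ^ 2)
        * |Real.sin (2 * Real.pi * Real.log t)|)
      ≤ Real.exp (a * Real.log t) * (Real.exp (-(Real.log t) ^ 2) * 1) := by
        gcongr
        exact Real.abs_sin_le_one _
    _ = Real.exp (a * Real.log t - (Real.log t) ^ 2) := by
        rw [mul_one, ← Real.exp_add]; ring_nf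
    _ ≤ Real.exp (a ^ 2 / 4) := by
        apply Real.exp_le_exp.2
        nlinarith [sq_nonneg (Real.log t - a / 2)]

lemma w0_cont : Continuous w0 := by
  rw [continuous_iff_continuousAt]
  intro t
  rcases lt_trichotomy t 0 with ht | ht | ht
  · have : w0 =ᶠ[𝓝 t] fun _ => 0 := by
      filter_upwards [Iio_mem_nhds ht] with s hs
      rw [w0, if_pos (le_of_lt hs)]
    exact continuousAt_const.congr this.symm
  · subst ht
    have h0 : w0 0 = 0 := by rw [w0, if_pos le_rfl]
    unfold ContinuousAt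
    rw [h0]
    have hlim : Tendsto (fun t : ℝ => Real.exp ((-1) ^ 2 / 4) * |t|) (𝓝 0) (𝓝 0) := by
      have : Tendsto (fun t : ℝ => Real.exp ((-1) ^ 2 / 4) * |t|) (𝓝 0)
          (𝓝 (Real.exp ((-1) ^ 2 / 4) * |0|)) :=
        (continuous_const.mul continuous_abs).tendsto 0
      simpa using this
    refine squeeze_zero_norm ?_ hlim
    intro t
    rcases le_or_gt t 0 with ht | ht
    · rw [w0, if_pos ht, norm_zero]; positivity
    · have h1 := w0_le ht (-1)
      have h2 : Real.exp (-1 * Real.log t) = t⁻¹ := by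
        rw [neg_one_mul, Real.exp_neg, Real.exp_log ht]
      rw [h2] at h1
      rw [Real.norm_eq_abs, abs_of_pos ht]
      rw [inv_mul_le_iff₀ ht] at h1
      linarith
  · have : w0 =ᶠ[𝓝 t] fun t => Real.exp (-(Real.log t) ^ 2)
        * Real.sin (2 * Real.pi * Real.log t) := by
      filter_upwards [Ioi_mem_nhds ht] with s hs
      rw [w0, if_neg (not_le.2 hs)]
    refine ContinuousAt.congr ?_ this.symm
    have hl : ContinuousAt Real.log t := Real.continuousAt_log ht.ne'
    have hs : ContinuousAt (fun t => Real.sin (2 * Real.pi * Real.log t)) t :=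
      Real.continuous_sin.continuousAt.comp' (continuousAt_const.mul hl)
    exact ((hl.pow 2).neg.rexp).mul hs

lemma w0_decay (k : ℕ) : ∃ C, ∀ t, |t| ^ k * |w0 t| ≤ C := by
  refine ⟨Real.exp ((k : ℝ) ^ 2 / 4), fun t => ?_⟩
  rcases le_or_gt t 0 with ht | ht
  · rw [w0, if_pos ht, abs_zero, mul_zero]; positivity
  · have h1 := w0_le ht k
    rw [mul_comm (k : ℝ), Real.exp_mul, Real.exp_log ht, Real.rpow_natCast] at h1
    rwa [abs_of_pos ht]

lemma w0_moment (k : ℕ) : ∫ t, t ^ k * w0 t = 0 := by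
  have h1 : ∫ t, t ^ k * w0 t = ∫ t in Ioi (0 : ℝ), t ^ k * w0 t := by
    refine (setIntegral_eq_integral_of_forall_compl_eq_zero ?_).symm
    intro x hx
    have hx' : x ≤ 0 := by simpa using hx
    rw [w0, if_pos hx', mul_zero]
  have himg : Real.exp '' univ = Ioi (0 : ℝ) := by
    rw [image_univ, Real.range_exp]
  have h2 : ∫ t in Ioi (0 : ℝ), t ^ k * w0 t
      = ∫ x, Real.exp (((k : ℝ) + 1) * x - x ^ 2) * Real.sin (2 * Real.pi * x) := by
    rw [← himg, integral_image_eq_integral_abs_deriv_smul MeasurableSet.univ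
      (fun x _ => (Real.hasDerivAt_exp x).hasDerivWithinAt) (Real.exp_injective.injOn),
      Measure.restrict_univ]
    refine integral_congr_ae (Eventually.of_forall fun x => ?_)
    show |Real.exp x| • (Real.exp x ^ k * w0 (Real.exp x)) = _
    rw [w0, if_neg (not_le.2 (Real.exp_pos x)), Real.log_exp, Real.abs_exp, smul_eq_mul,
      ← Real.exp_nat_mul]
    rw [← mul_assoc, ← mul_assoc, ← Real.exp_add, ← Real.exp_add]
    congr 2
    ring
  rw [h1, h2]
  set h : ℝ → ℝ := fun x => Real.exp (((k : ℝ) + 1) * x - x ^ 2) * Real.sin (2 * Real.pi * x)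
    with hh
  have h3 : ∫ x, h (((k : ℝ) + 1) - x) = ∫ x, h x := integral_sub_left_eq_self h volume _
  have h4 : ∀ x, h (((k : ℝ) + 1) - x) = - h x := by
    intro x
    simp only [hh]
    have e1 : ((k : ℝ) + 1) * ((k : ℝ) + 1 - x) - ((k : ℝ) + 1 - x) ^ 2
        = ((k : ℝ) + 1) * x - x ^ 2 := by ring
    have e2 : Real.sin (2 * Real.pi * ((k : ℝ) + 1 - x)) = - Real.sin (2 * Real.pi * x) := by
      have : 2 * Real.pi * ((k : ℝ) + 1 - x)
          = ((k + 1 : ℕ) : ℝ) * (2 * Real.pi) - 2 * Real.pi * x := by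
        push_cast; ring
      rw [this, Real.sin_nat_mul_two_pi_sub]
    rw [e1, e2]; ring
  simp only [h4] at h3
  rw [integral_neg] at h3
  linarith

lemma w0_good : Good w0 :=
  ⟨w0_cont, fun t ht => by rw [w0, if_pos ht], w0_decay, w0_moment⟩

lemma w0_ne : w0 (Real.exp (1 / 4)) ≠ 0 := by
  rw [w0, if_neg (not_le.2 (Real.exp_pos _)), Real.log_exp]
  have : 2 * Real.pi * (1 / 4) = Real.pi / 2 := by ring
  rw [this, Real.sin_pi_div_two, mul_one]
  exact (Real.exp_pos _).ne'



/-- a smooth bump function on the line -/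
def bump : ContDiffBump (0 : ℝ) := ⟨1 / 2, 1, by norm_num, by norm_num⟩

def phi (j : ℕ) : ℝ → ℝ := iteratedDeriv j (fun x => bump x)

lemma bump_contDiff : ContDiff ℝ ∞ (fun x => bump x) := bump.contDiff

lemma phi_hasDerivAt (j : ℕ) (x : ℝ) : HasDerivAt (phi j) (phi (j + 1) x) x := by
  have h1 : Differentiable ℝ (phi j) :=
    bump_contDiff.differentiable_iteratedDeriv j (by exact_mod_cast WithTop.coe_lt_top _)
  have h2 : phi (j + 1) = deriv (phi j) := iteratedDeriv_succ
  rw [h2]
  exact (h1 x).hasDerivAt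

lemma phi_cont (j : ℕ) : Continuous (phi j) :=
  continuous_iff_continuousAt.2 fun x => (phi_hasDerivAt j x).continuousAt

lemma phi_zero (j : ℕ) : ∀ x : ℝ, 1 < |x| → phi j x = 0 := by
  induction j with
  | zero =>
    intro x hx
    have h1 : phi 0 x = bump x := by simp [phi]
    rw [h1]
    apply bump.zero_of_le_dist
    rw [dist_zero_right, Real.norm_eq_abs]
    exact hx.le
  | succ j ih =>
    intro x hx
    have h2 : phi (j + 1) = deriv (phi j) := iteratedDeriv_succ
    rw [h2]
    have hopen : IsOpen {x : ℝ | 1 < |x|} := isOpen_lt continuous_const continuous_abs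
    have : phi j =ᶠ[𝓝 x] fun _ => 0 := by
      filter_upwards [hopen.mem_nhds hx] with y hy
      exact ih y hy
    rw [this.deriv_eq]
    simp

lemma phi_bdd (j : ℕ) : ∃ C, ∀ x, |phi j x| ≤ C := by
  have hc : HasCompactSupport (phi j) := by
    apply HasCompactSupport.of_support_subset_isCompact (isCompact_Icc (a := (-1 : ℝ)) (b := 1))
    intro x hx
    by_contra h
    apply hx
    apply phi_zero
    by_contra h2
    apply h
    rw [not_lt, abs_le] at h2
    exact h2
  exact (phi_cont j).bounded_above_of_compact_support hc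

lemma phi_zero_zero : phi 0 0 = 1 := by
  have h1 : phi 0 0 = bump 0 := by simp [phi]
  rw [h1]
  exact bump.one_of_mem_closedBall (by simp [bump])


/-- The iterated primitives of `w0`. -/
def W : ℕ → ℝ → ℝ
  | 0 => w0
  | j + 1 => prim (W j)

lemma W_good (j : ℕ) : Good (W j) := by
  induction j with
  | zero => exact w0_good
  | succ j ih => exact ih.primitive

lemma W_hasDerivAt (j : ℕ) (t : ℝ) : HasDerivAt (W (j + 1)) (W j t) t :=
  hasDerivAt_prim (W_good j) t

/-- The linear functional that sends `X ^ j` to `phi j ξ * W j η`. -/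
def Lam (ξ η : ℝ) : Polynomial ℝ →ₗ[ℝ] ℝ :=
  Polynomial.lsum fun j => (phi j ξ * W j η) • LinearMap.id

lemma Lam_monomial (ξ η : ℝ) (j : ℕ) (b : ℝ) :
    Lam ξ η (Polynomial.monomial j b) = b * (phi j ξ * W j η) := by
  rw [Lam, Polynomial.lsum_apply, Polynomial.sum_monomial_index]
  · simp [mul_comm]
  · simp

lemma Lam_bound (Q : Polynomial ℝ) : ∃ C, 0 ≤ C ∧ ∀ ξ η, (1 + η ^ 4) * |Lam ξ η Q| ≤ C := by
  induction Q using Polynomial.induction_on' with
  | add p q hp hq =>
    obtain ⟨C1, h1, h1'⟩ := hp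
    obtain ⟨C2, h2, h2'⟩ := hq
    refine ⟨C1 + C2, by positivity, fun ξ η => ?_⟩
    rw [map_add]
    calc (1 + η ^ 4) * |Lam ξ η p + Lam ξ η q|
        ≤ (1 + η ^ 4) * (|Lam ξ η p| + |Lam ξ η q|) := by
          gcongr
          exact abs_add_le _ _
      _ ≤ C1 + C2 := by
          rw [mul_add]
          exact add_le_add (h1' ξ η) (h2' ξ η)
  | monomial j b =>
    obtain ⟨A, hA⟩ := phi_bdd j
    obtain ⟨C0, h0⟩ := (W_good j).decay 0
    obtain ⟨C4, h4⟩ := (W_good j).decay 4
    have hA0 : 0 ≤ A := (abs_nonneg _).trans (hA 0)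
    have hC0 : 0 ≤ C0 := by
      have := h0 0
      rw [pow_zero, one_mul] at this
      exact (abs_nonneg _).trans this
    have hC4 : 0 ≤ C4 := le_trans (by positivity) (h4 0)
    refine ⟨|b| * (A * (C0 + C4)), by positivity, fun ξ η => ?_⟩
    rw [Lam_monomial, abs_mul, abs_mul]
    have e1 : |W j η| + |η| ^ 4 * |W j η| ≤ C0 + C4 := by
      refine add_le_add ?_ (h4 η)
      have := h0 η
      rwa [pow_zero, one_mul] at this
    have e2 : |η| ^ 4 = η ^ 4 := by
      rw [show (4 : ℕ) = 2 * 2 from rfl, pow_mul, pow_mul, sq_abs]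
    rw [e2] at e1
    calc (1 + η ^ 4) * (|b| * (|phi j ξ| * |W j η|))
        = |b| * (|phi j ξ| * (|W j η| + η ^ 4 * |W j η|)) := by ring
      _ ≤ |b| * (A * (C0 + C4)) := by
          gcongr
          exact hA ξ

lemma Lam_cont (Q : Polynomial ℝ) : Continuous fun z : ℝ × ℝ => Lam z.1 z.2 Q := by
  induction Q using Polynomial.induction_on' with
  | add p q hp hq =>
    simp only [map_add]
    exact hp.add hq
  | monomial j b =>
    simp only [Lam_monomial]
    exact continuous_const.mul (((phi_cont j).comp continuous_fst).mul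
      ((W_good j).cont.comp continuous_snd))

lemma Lam_zero (Q : Polynomial ℝ) (ξ η : ℝ) (h : 1 < |ξ| ∨ η ≤ 0) : Lam ξ η Q = 0 := by
  induction Q using Polynomial.induction_on' with
  | add p q hp hq => rw [map_add, hp, hq, add_zero]
  | monomial j b =>
    rw [Lam_monomial]
    rcases h with h | h
    · rw [phi_zero j ξ h]; simp
    · rw [(W_good j).supp η h]; simp

lemma one_add_pow4_ge (η : ℝ) : (1 + η ^ 2) / 2 ≤ 1 + η ^ 4 := by
  nlinarith [sq_nonneg (η ^ 2 - 1 / 2), sq_nonneg η]

lemma Lam_integrable (Q : Polynomial ℝ) (c a : ℝ) :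
    Integrable (fun η => Lam (c + a * η) η Q) := by
  obtain ⟨C, hC0, hC⟩ := Lam_bound Q
  refine (integrable_inv_one_add_sq.const_mul (2 * C)).mono' ?_ ?_
  · have h : Continuous (fun η : ℝ => ((c + a * η, η) : ℝ × ℝ)) := by fun_prop
    exact ((Lam_cont Q).comp h).aestronglyMeasurable
  · refine Eventually.of_forall fun η => ?_
    have hpos : 0 < 1 + η ^ 2 := by positivity
    rw [← div_eq_mul_inv, le_div_iff₀ hpos, Real.norm_eq_abs]
    have h1 := hC (c + a * η) η
    have h2 := one_add_pow4_ge η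
    have h3 := abs_nonneg (Lam (c + a * η) η Q)
    nlinarith [mul_le_mul_of_nonneg_right h2 h3]

open Polynomial in
lemma Lam_kill (Q : Polynomial ℝ) (c a : ℝ) :
    ∫ η, Lam (c + a * η) η ((1 + C a * X) * Q) = 0 := by
  induction Q using Polynomial.induction_on' with
  | add p q hp hq =>
    simp only [mul_add, map_add]
    rw [integral_add (Lam_integrable _ c a) (Lam_integrable _ c a), hp, hq, add_zero]
  | monomial j b =>
    have hm : (1 + C a * X) * monomial j b = monomial j b + monomial (j + 1) (a * b) := by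
      rw [add_mul, one_mul, mul_assoc, X_mul_monomial, C_mul_monomial]
    rw [hm]
    refine integral_eq_zero_of_hasDerivAt_of_integrable
      (f := fun η => b * (phi j (c + a * η) * W (j + 1) η)) ?_ (Lam_integrable _ c a) ?_
    · intro η
      have h1 : HasDerivAt (fun η => c + a * η) a η := by
        simpa using ((hasDerivAt_id η).const_mul a).const_add c
      have h2 : HasDerivAt (fun η => phi j (c + a * η)) (phi (j + 1) (c + a * η) * a) η :=
        (phi_hasDerivAt j (c + a * η)).comp η h1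
      have h3 := (h2.mul (W_hasDerivAt j η)).const_mul b
      refine (show HasDerivAt (fun η => b * (phi j (c + a * η) * W (j + 1) η)) _ η from h3).congr_deriv ?_
      rw [map_add, Lam_monomial, Lam_monomial]
      ring
    · obtain ⟨A, hA⟩ := phi_bdd j
      have hi : Integrable (W (j + 1)) := by simpa using (W_good (j + 1)).integrable 0
      refine Integrable.const_mul ?_ b
      refine (hi.abs.const_mul A).mono' ?_ ?_
      · refine Continuous.aestronglyMeasurable ?_
        exact ((phi_cont j).comp (continuous_const.add (continuous_const.mul continuous_id))).mul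
          (W_good (j + 1)).cont
      · refine Eventually.of_forall fun η => ?_
        rw [Real.norm_eq_abs, abs_mul]
        gcongr
        exact hA _


/-- A bound for the function given by a polynomial. -/
def cb (Q : Polynomial ℝ) : ℝ := (Lam_bound Q).choose

lemma cb_nonneg (Q : Polynomial ℝ) : 0 ≤ cb Q := (Lam_bound Q).choose_spec.1

lemma cb_spec (Q : Polynomial ℝ) (ξ η : ℝ) : (1 + η ^ 4) * |Lam ξ η Q| ≤ cb Q :=
  (Lam_bound Q).choose_spec.2 ξ η

def eps : ℝ := |w0 (Real.exp (1 / 4))| / 2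

lemma eps_pos : 0 < eps := by
  have := abs_pos.2 w0_ne
  unfold eps
  linarith

open Polynomial in
/-- The finite products `∏ (1 + a_k X)` and the numbers `a_k`, chosen small enough one after the
other. -/
def st : ℕ → ℝ[X] × ℝ
  | 0 => (1, eps)
  | m + 1 =>
    ((st m).1 * (1 + C ((st m).2 / (2 * (cb (X * (st m).1) + 1))) * X),
      (st m).2 / (2 * (cb (X * (st m).1) + 1)))

def pol (m : ℕ) : Polynomial ℝ := (st m).1

def slope (m : ℕ) : ℝ := (st m).2

open Polynomial in
lemma pol_succ (m : ℕ) : pol (m + 1) = pol m * (1 + C (slope (m + 1)) * X) := rfl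

open Polynomial in
lemma slope_succ (m : ℕ) : slope (m + 1) = slope m / (2 * (cb (X * pol m) + 1)) := rfl

lemma slope_pos (m : ℕ) : 0 < slope m := by
  induction m with
  | zero => exact eps_pos
  | succ m ih =>
    rw [slope_succ]
    have := cb_nonneg (Polynomial.X * pol m)
    positivity

lemma slope_half (m : ℕ) : slope (m + 1) ≤ slope m / 2 := by
  rw [slope_succ]
  have h := cb_nonneg (Polynomial.X * pol m)
  have h2 := slope_pos m
  apply div_le_div_of_nonneg_left h2.le (by norm_num)
  linarith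

lemma slope_cb (m : ℕ) : slope (m + 1) * cb (Polynomial.X * pol m) ≤ slope m / 2 := by
  rw [slope_succ]
  have h := cb_nonneg (Polynomial.X * pol m)
  have h2 := slope_pos m
  rw [div_mul_eq_mul_div, div_le_div_iff₀ (by positivity) (by norm_num)]
  nlinarith

lemma slope_le (m : ℕ) : slope m ≤ eps * (1 / 2) ^ m := by
  induction m with
  | zero => simp [slope, st]
  | succ m ih =>
    have := slope_half m
    rw [pow_succ]
    linarith

lemma slope_strictAnti : StrictAnti slope := by
  apply strictAnti_nat_of_succ_lt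
  intro m
  have h1 := slope_half m
  have h2 := slope_pos m
  linarith

/-- The successive differences. -/
def dif (m : ℕ) (ξ η : ℝ) : ℝ := slope (m + 1) * Lam ξ η (Polynomial.X * pol m)

lemma dif_bound (m : ℕ) (ξ η : ℝ) : (1 + η ^ 4) * |dif m ξ η| ≤ eps * (1 / 2) ^ (m + 1) := by
  unfold dif
  rw [abs_mul, abs_of_pos (slope_pos _)]
  have h1 := cb_spec (Polynomial.X * pol m) ξ η
  have h2 := slope_cb m
  have h3 := slope_le m
  have h4 := slope_pos (m + 1)
  calc (1 + η ^ 4) * (slope (m + 1) * |Lam ξ η (Polynomial.X * pol m)|)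
      = slope (m + 1) * ((1 + η ^ 4) * |Lam ξ η (Polynomial.X * pol m)|) := by ring
    _ ≤ slope (m + 1) * cb (Polynomial.X * pol m) := by gcongr
    _ ≤ slope m / 2 := h2
    _ ≤ eps * (1 / 2) ^ (m + 1) := by rw [pow_succ]; linarith

lemma Lam_pol_succ (m : ℕ) (ξ η : ℝ) :
    Lam ξ η (pol (m + 1)) = Lam ξ η (pol m) + dif m ξ η := by
  have h : pol (m + 1) = pol m + slope (m + 1) • (Polynomial.X * pol m) := by
    rw [pol_succ, Polynomial.smul_eq_C_mul]
    ring
  rw [h, map_add, map_smul, smul_eq_mul]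
  rfl

lemma Lam_pol (m : ℕ) (ξ η : ℝ) :
    Lam ξ η (pol m) = Lam ξ η 1 + ∑ i ∈ Finset.range m, dif i ξ η := by
  induction m with
  | zero => simp [pol, st]
  | succ m ih => rw [Lam_pol_succ, ih, Finset.sum_range_succ]; ring

lemma abs_dif_le (m : ℕ) (ξ η : ℝ) : |dif m ξ η| ≤ eps * (1 / 2) ^ (m + 1) := by
  have h := dif_bound m ξ η
  have h1 : (1 : ℝ) ≤ 1 + η ^ 4 := by
    have : 0 ≤ η ^ 4 := by positivity
    linarith
  nlinarith [abs_nonneg (dif m ξ η)]

lemma summable_geo : Summable fun m : ℕ => eps * (1 / 2) ^ (m + 1) := by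
  apply Summable.mul_left
  exact (summable_nat_add_iff 1).2 summable_geometric_two

lemma summable_dif (ξ η : ℝ) : Summable fun m => dif m ξ η :=
  Summable.of_norm_bounded summable_geo fun m => abs_dif_le m ξ η

/-- The limit function in the coordinates `ξ = x / y`, `η = 1 / y` (shifted). -/
def F (ξ η : ℝ) : ℝ := Lam ξ η 1 + ∑' m, dif m ξ η

lemma F_tendsto (ξ η : ℝ) : Tendsto (fun m => Lam ξ η (pol m)) atTop (𝓝 (F ξ η)) := by
  have h := (summable_dif ξ η).hasSum.tendsto_sum_nat
  have h2 := h.const_add (Lam ξ η 1)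
  refine h2.congr fun m => ?_
  rw [Lam_pol]

lemma F_cont : Continuous fun z : ℝ × ℝ => F z.1 z.2 := by
  refine (Lam_cont 1).add ?_
  refine continuous_tsum (u := fun m : ℕ => eps * (1 / 2) ^ (m + 1)) ?_ summable_geo ?_
  · intro m
    exact continuous_const.mul (Lam_cont _)
  · intro m z
    exact abs_dif_le m z.1 z.2

lemma F_zero (ξ η : ℝ) (h : 1 < |ξ| ∨ η ≤ 0) : F ξ η = 0 := by
  have h1 : ∀ m, dif m ξ η = 0 := fun m => by rw [dif, Lam_zero _ ξ η h, mul_zero]
  rw [F, Lam_zero _ ξ η h]
  simp [h1]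

lemma Lam_pol_sub (m : ℕ) (ξ η : ℝ) :
    (1 + η ^ 4) * |Lam ξ η (pol m) - Lam ξ η 1| ≤ eps * (1 - (1 / 2) ^ m) := by
  induction m with
  | zero => simp [pol, st]
  | succ m ih =>
    have h := dif_bound m ξ η
    rw [Lam_pol_succ]
    have e : Lam ξ η (pol m) + dif m ξ η - Lam ξ η 1
        = (Lam ξ η (pol m) - Lam ξ η 1) + dif m ξ η := by ring
    rw [e]
    calc (1 + η ^ 4) * |(Lam ξ η (pol m) - Lam ξ η 1) + dif m ξ η|
        ≤ (1 + η ^ 4) * (|Lam ξ η (pol m) - Lam ξ η 1| + |dif m ξ η|) := by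
          gcongr
          exact abs_add_le _ _
      _ ≤ eps * (1 - (1 / 2) ^ (m + 1)) := by
          rw [mul_add]
          have : eps * (1 - (1 / 2 : ℝ) ^ (m + 1))
              = eps * (1 - (1 / 2) ^ m) + eps * (1 / 2) ^ (m + 1) := by
            rw [pow_succ]; ring
          rw [this]
          exact add_le_add ih h

lemma Lam_pol_sub' (m : ℕ) (ξ η : ℝ) :
    (1 + η ^ 4) * |Lam ξ η (pol m) - Lam ξ η 1| ≤ eps := by
  refine (Lam_pol_sub m ξ η).trans ?_
  have h1 : (0 : ℝ) ≤ (1 / 2) ^ m := by positivity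
  have h2 := eps_pos
  nlinarith

lemma F_sub (ξ η : ℝ) : (1 + η ^ 4) * |F ξ η - Lam ξ η 1| ≤ eps := by
  have h := ((F_tendsto ξ η).sub_const (Lam ξ η 1)).abs.const_mul (1 + η ^ 4)
  exact le_of_tendsto h (Eventually.of_forall fun m => Lam_pol_sub' m ξ η)

lemma Lam_pol_bound (m : ℕ) (ξ η : ℝ) : (1 + η ^ 4) * |Lam ξ η (pol m)| ≤ cb 1 + eps := by
  have h1 := Lam_pol_sub' m ξ η
  have h2 := cb_spec 1 ξ η
  have e : Lam ξ η (pol m) = Lam ξ η 1 + (Lam ξ η (pol m) - Lam ξ η 1) := by ring
  rw [e]
  calc (1 + η ^ 4) * |Lam ξ η 1 + (Lam ξ η (pol m) - Lam ξ η 1)|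
      ≤ (1 + η ^ 4) * (|Lam ξ η 1| + |Lam ξ η (pol m) - Lam ξ η 1|) := by
        gcongr
        exact abs_add_le _ _
    _ ≤ cb 1 + eps := by
        rw [mul_add]
        exact add_le_add h2 h1

lemma F_bound (ξ η : ℝ) : (1 + η ^ 4) * |F ξ η| ≤ cb 1 + eps := by
  have h := (F_tendsto ξ η).abs.const_mul (1 + η ^ 4)
  exact le_of_tendsto h (Eventually.of_forall fun m => Lam_pol_bound m ξ η)

open Polynomial in
lemma dvd_pol (k m : ℕ) (h : k + 1 ≤ m) : (1 + C (slope (k + 1)) * X) ∣ pol m := by
  induction m, h using Nat.le_induction with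
  | base => exact ⟨pol k, by rw [pol_succ]; ring⟩
  | succ m _ ih => rw [pol_succ]; exact ih.mul_right _

lemma F_kill (k : ℕ) (c : ℝ) : ∫ η, F (c + slope (k + 1) * η) η = 0 := by
  have hC : 0 ≤ cb 1 + eps := add_nonneg (cb_nonneg 1) eps_pos.le
  have hlim : Tendsto (fun m => ∫ η, Lam (c + slope (k + 1) * η) η (pol m)) atTop
      (𝓝 (∫ η, F (c + slope (k + 1) * η) η)) := by
    refine tendsto_integral_of_dominated_convergence
      (fun η => 2 * (cb 1 + eps) * (1 + η ^ 2)⁻¹) ?_ ?_ ?_ ?_
    · intro m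
      exact (Lam_integrable (pol m) c _).aestronglyMeasurable
    · exact integrable_inv_one_add_sq.const_mul _
    · intro m
      refine Eventually.of_forall fun η => ?_
      have hpos : 0 < 1 + η ^ 2 := by positivity
      rw [← div_eq_mul_inv, le_div_iff₀ hpos, Real.norm_eq_abs]
      have h1 := Lam_pol_bound m (c + slope (k + 1) * η) η
      have h2 := one_add_pow4_ge η
      have h3 := abs_nonneg (Lam (c + slope (k + 1) * η) η (pol m))
      nlinarith [mul_le_mul_of_nonneg_right h2 h3]
    · exact Eventually.of_forall fun η => F_tendsto _ _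
  have hzero : ∀ᶠ m in atTop, ∫ η, Lam (c + slope (k + 1) * η) η (pol m) = 0 := by
    filter_upwards [eventually_ge_atTop (k + 1)] with m hm
    obtain ⟨Q, hQ⟩ := dvd_pol k m hm
    rw [hQ]
    exact Lam_kill Q c _
  exact tendsto_nhds_unique hlim (tendsto_const_nhds.congr' (by
    filter_upwards [hzero] with m hm using hm.symm))

lemma F_ne : F 0 (Real.exp (1 / 4)) ≠ 0 := by
  intro h
  have h1 := F_sub 0 (Real.exp (1 / 4))
  have h2 : Lam 0 (Real.exp (1 / 4)) 1 = w0 (Real.exp (1 / 4)) := by
    rw [← Polynomial.monomial_zero_one, Lam_monomial, phi_zero_zero]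
    simp [W]
  rw [h, h2, zero_sub, abs_neg] at h1
  have h3 : |w0 (Real.exp (1 / 4))| = 2 * eps := by unfold eps; ring
  rw [h3] at h1
  have h4 := eps_pos
  have h5 : 0 ≤ (Real.exp (1 / 4)) ^ 4 := by positivity
  nlinarith [mul_nonneg h5 h4.le]


/-! ### The function on `ℝⁿ` -/

variable {n : ℕ}

/-- distance to the axis spanned by the coordinate `i` -/
def rho (i : Fin n) (x : EuclideanSpace ℝ (Fin n)) : ℝ := √(‖x‖ ^ 2 - (x i) ^ 2)

lemma rho_cont (i : Fin n) : Continuous (rho i) := by
  unfold rho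
  fun_prop

lemma coord_sq_le (i : Fin n) (x : EuclideanSpace ℝ (Fin n)) : (x i) ^ 2 ≤ ‖x‖ ^ 2 := by
  rw [EuclideanSpace.norm_sq_eq]
  have : (x i) ^ 2 = ‖x i‖ ^ 2 := by rw [Real.norm_eq_abs, sq_abs]
  rw [this]
  exact Finset.single_le_sum (f := fun j => ‖x j‖ ^ 2) (fun j _ => by positivity)
    (Finset.mem_univ i)

lemma rho_sq (i : Fin n) (x : EuclideanSpace ℝ (Fin n)) :
    rho i x ^ 2 = ‖x‖ ^ 2 - (x i) ^ 2 := by
  unfold rho
  rw [Real.sq_sqrt]
  linarith [coord_sq_le i x]

lemma rho_nonneg (i : Fin n) (x : EuclideanSpace ℝ (Fin n)) : 0 ≤ rho i x := Real.sqrt_nonneg _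

/-- The counterexample. -/
def fn (i : Fin n) (x : EuclideanSpace ℝ (Fin n)) : ℝ :=
  (1 / rho i x) ^ 2 * F (x i / rho i x) (1 / rho i x - 1)

lemma fn_bound (i : Fin n) (x : EuclideanSpace ℝ (Fin n)) :
    |fn i x| ≤ 16 * (cb 1 + eps) * rho i x ^ 2 := by
  have hC : 0 ≤ cb 1 + eps := add_nonneg (cb_nonneg 1) eps_pos.le
  rcases (rho_nonneg i x).eq_or_lt with h | h
  · rw [fn, ← h]; simp
  · set r := rho i x with hr
    set e := 1 / r with he
    have he0 : 0 < e := by positivity
    have hre : r = 1 / e := by rw [he, one_div_one_div]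
    unfold fn
    rw [← hr, ← he]
    rcases le_or_gt e 1 with h1 | h1
    · rw [F_zero _ _ (Or.inr (by linarith))]
      simp only [mul_zero, abs_zero]
      positivity
    · have hb := F_bound (x i / r) (e - 1)
      have h2 : e ^ 4 / 16 ≤ 1 + (e - 1) ^ 4 := by
        rcases le_or_gt e 2 with h3 | h3
        · have h4 : e ^ 4 ≤ 2 ^ 4 := by gcongr
          have h5 : 0 ≤ (e - 1) ^ 4 := by positivity
          linarith
        · have h4 : (e / 2) ^ 4 ≤ (e - 1) ^ 4 := by
            apply pow_le_pow_left₀ (by positivity)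
            linarith
          have h5 : (e / 2) ^ 4 = e ^ 4 / 16 := by ring
          linarith
      have h6 : e ^ 4 / 16 * |F (x i / r) (e - 1)| ≤ cb 1 + eps :=
        le_trans (mul_le_mul_of_nonneg_right h2 (abs_nonneg _)) hb
      rw [abs_mul, abs_of_nonneg (by positivity : (0 : ℝ) ≤ e ^ 2), hre]
      have h7 : 16 * (cb 1 + eps) * (1 / e) ^ 2 = 16 * (cb 1 + eps) / e ^ 2 := by
        rw [one_div, inv_pow]; rfl
      rw [h7, le_div_iff₀ (by positivity)]
      have h8 : e ^ 2 * |F (x i / r) (e - 1)| * e ^ 2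
          = 16 * (e ^ 4 / 16 * |F (x i / r) (e - 1)|) := by ring
      rw [← hre, h8]
      linarith

lemma fn_continuous (i : Fin n) : Continuous (fn i) := by
  rw [continuous_iff_continuousAt]
  intro x
  rcases (rho_nonneg i x).eq_or_lt with h | h
  · have h0 : fn i x = 0 := by rw [fn, ← h]; simp
    unfold ContinuousAt
    rw [h0]
    have hlim : Tendsto (fun y => 16 * (cb 1 + eps) * rho i y ^ 2) (𝓝 x) (𝓝 0) := by
      have : Tendsto (fun y => 16 * (cb 1 + eps) * rho i y ^ 2) (𝓝 x)
          (𝓝 (16 * (cb 1 + eps) * rho i x ^ 2)) :=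
        (continuous_const.mul ((rho_cont i).pow 2)).tendsto x
      rw [← h] at this
      simpa using this
    exact squeeze_zero_norm (fun y => by rw [Real.norm_eq_abs]; exact fn_bound i y) hlim
  · have hr : ContinuousAt (fun y => 1 / rho i y) x :=
      continuousAt_const.div (rho_cont i).continuousAt h.ne'
    have hx : ContinuousAt (fun y : EuclideanSpace ℝ (Fin n) => y i / rho i y) x :=
      ContinuousAt.div (by fun_prop) (rho_cont i).continuousAt h.ne'
    have hz : ContinuousAt (fun y : EuclideanSpace ℝ (Fin n) =>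
        ((y i / rho i y, 1 / rho i y - 1) : ℝ × ℝ)) x :=
      hx.prodMk (hr.sub continuousAt_const)
    have hF : ContinuousAt ((fun z : ℝ × ℝ => F z.1 z.2) ∘ fun y : EuclideanSpace ℝ (Fin n) =>
        ((y i / rho i y, 1 / rho i y - 1) : ℝ × ℝ)) x :=
      ContinuousAt.comp F_cont.continuousAt hz
    exact (hr.pow 2).mul hF

lemma fn_compact (i : Fin n) : HasCompactSupport (fn i) := by
  apply HasCompactSupport.of_support_subset_isCompact
    (isCompact_closedBall (0 : EuclideanSpace ℝ (Fin n)) 2)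
  intro x hx
  rw [mem_closedBall_zero_iff]
  by_contra hlt
  apply hx
  have h1 : 2 < ‖x‖ := not_le.1 hlt
  rcases (rho_nonneg i x).eq_or_lt with h | h
  · rw [fn, ← h]; simp
  · unfold fn
    rw [F_zero, mul_zero]
    by_contra hcon
    rw [not_or, not_lt, not_le, abs_div, abs_of_pos h, div_le_one h, sub_pos,
      one_lt_div h] at hcon
    obtain ⟨h2, h3⟩ := hcon
    have h4 := rho_sq i x
    have h5 : (x i) ^ 2 ≤ rho i x ^ 2 := by
      rw [← sq_abs (x i)]
      exact pow_le_pow_left₀ (abs_nonneg _) h2 2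
    nlinarith

lemma integral_aux (k : ℕ) (c s : ℝ) (hs : 0 < s) :
    ∫ t in Ioi (0 : ℝ), (1 / (s * t)) ^ 2 * F (c + slope (k + 1) * (1 / (s * t)))
      (1 / (s * t) - 1) = 0 := by
  set h : ℝ → ℝ := fun η => F (c + slope (k + 1) * η) (η - 1) with hh
  have h1 : ∫ t in Ioi (0 : ℝ), (1 / (s * t)) ^ 2 * F (c + slope (k + 1) * (1 / (s * t)))
      (1 / (s * t) - 1) = s⁻¹ • ∫ y in Ioi (s * 0), (1 / y) ^ 2 * h (1 / y) :=
    integral_comp_mul_left_Ioi (fun y => (1 / y) ^ 2 * h (1 / y)) 0 hs
  have h2 : ∫ y in Ioi (0 : ℝ), (1 / y) ^ 2 * h (1 / y) = ∫ y in Ioi (0 : ℝ), h y := by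
    rw [← integral_comp_rpow_Ioi h (p := -1) (by norm_num)]
    refine setIntegral_congr_fun measurableSet_Ioi fun y hy => ?_
    have hy' : (0 : ℝ) < y := hy
    show (1 / y) ^ 2 * h (1 / y) = (|(-1 : ℝ)| * y ^ ((-1 : ℝ) - 1)) • h (y ^ (-1 : ℝ))
    have e1 : y ^ (-1 : ℝ) = 1 / y := by rw [Real.rpow_neg_one, one_div]
    have e2 : y ^ ((-1 : ℝ) - 1) = (1 / y) ^ 2 := by
      have : ((-1 : ℝ) - 1) = -((2 : ℕ) : ℝ) := by norm_num
      rw [this, Real.rpow_neg hy'.le, Real.rpow_natCast, one_div, inv_pow]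
    rw [e1, e2, abs_neg, abs_one, one_mul, smul_eq_mul]
  have h3 : ∫ y in Ioi (0 : ℝ), h y = ∫ y, h y := by
    apply setIntegral_eq_integral_of_forall_compl_eq_zero
    intro y hy
    have hy' : y ≤ 0 := by simpa using hy
    exact F_zero _ _ (Or.inr (by linarith))
  have h4 : ∫ y, h y = 0 := by
    have h5 := integral_sub_right_eq_self
      (fun η => F ((c + slope (k + 1)) + slope (k + 1) * η) η) (1 : ℝ) (μ := volume)
    rw [F_kill] at h5
    rw [← h5]
    congr 1
    ext η
    simp only [hh]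
    congr 1
    ring
  rw [h1, mul_zero, h2, h3, h4, smul_zero]


lemma beam_zero (i : Fin n) (k : ℕ) (u : EuclideanSpace ℝ (Fin n)) (hu : ‖u‖ = 1) :
    divergentBeam (fn i) (EuclideanSpace.single i (slope (k + 1))) u = 0 := by
  set a := slope (k + 1) with ha
  set s := rho i u with hs
  have hs2 : s ^ 2 = 1 - (u i) ^ 2 := by rw [hs, rho_sq, hu]; norm_num
  have hcoord : ∀ t : ℝ, (EuclideanSpace.single i a + t • u) i = a + t * u i := by
    intro t
    simp
  have hrho : ∀ t : ℝ, 0 < t → rho i (EuclideanSpace.single i a + t • u) = s * t := by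
    intro t ht
    have h1 : ‖EuclideanSpace.single i a + t • u‖ ^ 2 = a ^ 2 + 2 * (t * (a * u i)) + t ^ 2 := by
      rw [norm_add_sq_real, inner_smul_right, EuclideanSpace.inner_single_left, norm_smul, hu]
      simp
    have h2 : rho i (EuclideanSpace.single i a + t • u) ^ 2 = (s * t) ^ 2 := by
      rw [rho_sq, hcoord, h1, mul_pow, hs2]
      ring
    exact (pow_left_inj₀ (rho_nonneg i _) (mul_nonneg (rho_nonneg i u) ht.le)
      (by norm_num)).1 h2
  unfold divergentBeam
  rcases (rho_nonneg i u).eq_or_lt with h | h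
  · have : ∫ t in Ioi (0 : ℝ), fn i (EuclideanSpace.single i a + t • u)
        = ∫ t in Ioi (0 : ℝ), (0 : ℝ) := by
      refine setIntegral_congr_fun measurableSet_Ioi fun t ht => ?_
      show fn i (EuclideanSpace.single i a + t • u) = 0
      rw [fn, hrho t ht, hs, ← h]
      simp
    rw [this]
    simp
  · have hs0 : 0 < s := h
    refine Eq.trans ?_ (integral_aux k (u i / s) s hs0)
    refine setIntegral_congr_fun measurableSet_Ioi fun t ht => ?_
    have ht' : (0 : ℝ) < t := ht
    show fn i (EuclideanSpace.single i a + t • u) = _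
    rw [fn, hrho t ht, hcoord]
    congr 2
    rw [← ha]
    field_simp
    ring

lemma fn_ne (i j : Fin n) (hij : i ≠ j) : fn i ≠ 0 := by
  intro hzero
  set r : ℝ := 1 / (1 + Real.exp (1 / 4)) with hr
  have hr0 : 0 < r := by positivity
  have h1 : rho i (EuclideanSpace.single j r) = r := by
    have : rho i (EuclideanSpace.single j r) ^ 2 = r ^ 2 := by
      rw [rho_sq]
      simp [hij]
    exact (pow_left_inj₀ (rho_nonneg i _) hr0.le (by norm_num)).1 this
  have h2 : fn i (EuclideanSpace.single j r) = (1 / r) ^ 2 * F 0 (Real.exp (1 / 4)) := by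
    rw [fn, h1]
    have e1 : (EuclideanSpace.single j r : EuclideanSpace ℝ (Fin n)) i = 0 := by
      simp [hij]
    have e2 : 1 / r - 1 = Real.exp (1 / 4) := by
      rw [hr, one_div_one_div]; ring
    rw [e1, e2, zero_div]
  rw [hzero] at h2
  have h3 : (1 / r) ^ 2 * F 0 (Real.exp (1 / 4)) ≠ 0 := mul_ne_zero (by positivity) F_ne
  exact h3 h2.symm

/-- In every dimension `n ≥ 2` there are a continuous function `f` with compact support that is not
almost everywhere zero and an infinite set `P` of points at which all directed X-rays of `f`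
vanish. -/
theorem result (n : ℕ) (hn : 2 ≤ n) :
    ∃ (f : EuclideanSpace ℝ (Fin n) → ℝ) (P : Set (EuclideanSpace ℝ (Fin n))),
      Continuous f ∧ HasCompactSupport f ∧ P.Infinite ∧
      (∀ p ∈ P, ∀ u : EuclideanSpace ℝ (Fin n), ‖u‖ = 1 → divergentBeam f p u = 0) ∧
      ¬ (f =ᵐ[volume] 0) := by
  obtain ⟨i, j, hij⟩ : ∃ i j : Fin n, i ≠ j :=
    ⟨⟨0, by omega⟩, ⟨1, by omega⟩, by simp⟩
  refine ⟨fn i, Set.range fun k : ℕ => EuclideanSpace.single i (slope (k + 1)),
    fn_continuous i, fn_compact i, ?_, ?_, ?_⟩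
  · apply Set.infinite_range_of_injective
    intro k l hkl
    have h1 : slope (k + 1) = slope (l + 1) := by
      have := congrArg (fun x : EuclideanSpace ℝ (Fin n) => x i) hkl
      simpa using this
    have := slope_strictAnti.injective h1
    omega
  · rintro p ⟨k, rfl⟩ u hu
    exact beam_zero i k u hu
  · intro h
    exact fn_ne i j hij ((fn_continuous i).ae_eq_iff_eq volume continuous_zero |>.1 h)


end Pool.Agent.Results.MP_113557_an.InfinitePointsFail
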